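import Mathlib

/-!
The algebra generated by two matrices `X`, `Y` of determinant one: coordinates in the basis
`1, X, Y, X * Y`.
-/

namespace Pool.Agent.W_9a760e_h67

open Matrix

/-- the commutator `[a, b] = a⁻¹ b⁻¹ a b` -/
def comm {G : Type*} [Group G] (a b : G) : G := a⁻¹ * b⁻¹ * a * b

/-- `word x y n` is the word `u_(n+1)`: `u_1 = [x, y]`, `u_(n+1) = [[u_n, x], [u_n, y]]` -/
def word {G : Type*} [Group G] (x y : G) : ℕ → G
  | 0 => comm x y
  | n + 1 => comm (comm (word x y n) x) (comm (word x y n) y)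

variable {K : Type*} [Field K]

/-- the element with coordinates `a, b, c, d` -/
def E (X Y : Matrix (Fin 2) (Fin 2) K) (a b c d : K) : Matrix (Fin 2) (Fin 2) K :=
  a • (1 : Matrix (Fin 2) (Fin 2) K) + b • X + c • Y + d • (X * Y)

/-- determinants one, traces `x`, `y`, `z` of `X`, `Y`, `X * Y` -/
structure Tr (X Y : Matrix (Fin 2) (Fin 2) K) (x y z : K) : Prop where
  dX : X 0 0 * X 1 1 - X 0 1 * X 1 0 = 1
  dY : Y 0 0 * Y 1 1 - Y 0 1 * Y 1 0 = 1
  x : X 0 0 + X 1 1 = x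
  y : Y 0 0 + Y 1 1 = y
  z : X 0 0 * Y 0 0 + X 0 1 * Y 1 0 + (X 1 0 * Y 0 1 + X 1 1 * Y 1 1) = z

lemma E_mul_gen (X Y : Matrix (Fin 2) (Fin 2) K) (a b c d e f g h : K) :
    let nX := X 0 0 * X 1 1 - X 0 1 * X 1 0
    let nY := Y 0 0 * Y 1 1 - Y 0 1 * Y 1 0
    let x := X 0 0 + X 1 1
    let y := Y 0 0 + Y 1 1
    let z := X 0 0 * Y 0 0 + X 0 1 * Y 1 0 + (X 1 0 * Y 0 1 + X 1 1 * Y 1 1)
    E X Y a b c d * E X Y e f g h =
      E X Y (a * e - nX * b * f + c * f * (z - x * y) - nY * c * g - nY * c * h * x -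
          nX * d * f * y - nX * nY * d * h)
        (a * f + b * e + b * f * x + c * f * y + nY * c * h + d * f * z - nY * d * g)
        (a * g + c * e - nX * b * h + c * f * x + c * g * y + c * h * z + nX * d * f)
        (a * h + b * g + b * h * x - c * f + d * e + d * g * y + d * h * z) := by
  intro nX nY x y z
  ext i j
  fin_cases i <;> fin_cases j <;>
    simp [E, Matrix.mul_apply, Fin.sum_univ_two, nX, nY, x, y, z] <;> ring

lemma E_mul {X Y : Matrix (Fin 2) (Fin 2) K} {x y z : K} (H : Tr X Y x y z)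
    {a b c d e f g h A B C D : K}
    (hA : a * e - b * f + c * f * (z - x * y) - c * g - c * h * x - d * f * y - d * h = A)
    (hB : a * f + b * e + b * f * x + c * f * y + c * h + d * f * z - d * g = B)
    (hC : a * g + c * e - b * h + c * f * x + c * g * y + c * h * z + d * f = C)
    (hD : a * h + b * g + b * h * x - c * f + d * e + d * g * y + d * h * z = D) :
    E X Y a b c d * E X Y e f g h = E X Y A B C D := by
  have h0 := E_mul_gen X Y a b c d e f g h
  simp only [H.dX, H.dY, H.x, H.y, H.z, one_mul] at h0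
  rw [h0, ← hA, ← hB, ← hC, ← hD]

lemma E_adj {X Y : Matrix (Fin 2) (Fin 2) K} {x y z : K} (H : Tr X Y x y z)
    (a b c d : K) : adjugate (E X Y a b c d) =
      E X Y (a + b * x + c * y + d * z) (-b) (-c) (-d) := by
  rw [← H.x, ← H.y, ← H.z, Matrix.adjugate_fin_two]
  ext i j
  fin_cases i <;> fin_cases j <;>
    simp [E, Matrix.mul_apply, Fin.sum_univ_two] <;> ring

lemma E_trace {X Y : Matrix (Fin 2) (Fin 2) K} {x y z : K} (H : Tr X Y x y z)
    (a b c d : K) : (E X Y a b c d) 0 0 + (E X Y a b c d) 1 1 = 2 * a + b * x + c * y + d * z := by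
  rw [← H.x, ← H.y, ← H.z]
  simp [E, Matrix.mul_apply, Fin.sum_univ_two]
  ring

/-- coordinates of a commutator -/
lemma comm_E {X Y : Matrix (Fin 2) (Fin 2) K} {x y z : K} (H : Tr X Y x y z)
    {g k : SpecialLinearGroup (Fin 2) K} {a b c d a' b' c' d' p0 p1 p2 p3 q0 q1 q2 q3 r0 r1 r2 r3 : K}
    (hg : (g : Matrix (Fin 2) (Fin 2) K) = E X Y a b c d)
    (hk : (k : Matrix (Fin 2) (Fin 2) K) = E X Y a' b' c' d')
    (h1 : E X Y (a + b * x + c * y + d * z) (-b) (-c) (-d) *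
      E X Y (a' + b' * x + c' * y + d' * z) (-b') (-c') (-d') = E X Y p0 p1 p2 p3)
    (h2 : E X Y a b c d * E X Y a' b' c' d' = E X Y q0 q1 q2 q3)
    (h3 : E X Y p0 p1 p2 p3 * E X Y q0 q1 q2 q3 = E X Y r0 r1 r2 r3) :
    ((comm g k : SpecialLinearGroup (Fin 2) K) : Matrix (Fin 2) (Fin 2) K) = E X Y r0 r1 r2 r3 := by
  have e : ((comm g k : SpecialLinearGroup (Fin 2) K) : Matrix (Fin 2) (Fin 2) K) =
      adjugate (g : Matrix (Fin 2) (Fin 2) K) * adjugate (k : Matrix (Fin 2) (Fin 2) K) *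
        ((g : Matrix (Fin 2) (Fin 2) K) * (k : Matrix (Fin 2) (Fin 2) K)) := by
    have e1 : comm g k = g⁻¹ * k⁻¹ * (g * k) := by rw [comm, mul_assoc (g⁻¹ * k⁻¹)]
    rw [e1]
    rfl
  rw [e, hg, hk, E_adj H, E_adj H, h1, h2, h3]

end Pool.Agent.W_9a760e_h67
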