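import Pool.Agent.W_9a760e_h67.Alg

namespace Pool.Agent.W_9a760e_h67

open Matrix

variable {K : Type*} [Field K]

/-- traces `0, t, t`: `u_4 = u_3 = - u_2` -/
theorem chain16 {gX gY : SpecialLinearGroup (Fin 2) K} {t : K}
    (H : Tr (gX : Matrix (Fin 2) (Fin 2) K) (gY : Matrix (Fin 2) (Fin 2) K) 0 t t)
    (ht : 2*t^4 - 4*t^2 + 1 = 0) :
    ((word gX gY 1 : SpecialLinearGroup (Fin 2) K) : Matrix (Fin 2) (Fin 2) K) = E (gX : Matrix (Fin 2) (Fin 2) K) (gY : Matrix (Fin 2) (Fin 2) K) 0 (-2*t^2 + 1) (-t) t ∧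
    ((word gX gY 2 : SpecialLinearGroup (Fin 2) K) : Matrix (Fin 2) (Fin 2) K) = E (gX : Matrix (Fin 2) (Fin 2) K) (gY : Matrix (Fin 2) (Fin 2) K) 0 (2*t^2 - 1) t (-t) ∧
    ((word gX gY 3 : SpecialLinearGroup (Fin 2) K) : Matrix (Fin 2) (Fin 2) K) = E (gX : Matrix (Fin 2) (Fin 2) K) (gY : Matrix (Fin 2) (Fin 2) K) 0 (2*t^2 - 1) t (-t) := by
  set X : Matrix (Fin 2) (Fin 2) K := (gX : Matrix (Fin 2) (Fin 2) K) with hXd
  set Y : Matrix (Fin 2) (Fin 2) K := (gY : Matrix (Fin 2) (Fin 2) K) with hYd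
  have hX : (gX : Matrix (Fin 2) (Fin 2) K) = E X Y 0 1 0 0 := by simp [E, hXd]
  have hY : (gY : Matrix (Fin 2) (Fin 2) K) = E X Y 0 0 1 0 := by simp [E, hYd]
  have u0 : ((word gX gY 0 : SpecialLinearGroup (Fin 2) K) : Matrix (Fin 2) (Fin 2) K) = E X Y (-1) 0 t t :=
    comm_E H (p0 := 0) (p1 := -t) (p2 := 0) (p3 := 1) (q0 := 0) (q1 := 0) (q2 := 0) (q3 := 1) hX hY
      (E_mul H (by ring) (by ring) (by ring) (by ring))
      (E_mul H (by ring) (by ring) (by ring) (by ring))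
      (E_mul H (by ring) (by ring) (by ring) (by ring))
  have a1 : ((comm (word gX gY 0) gX : SpecialLinearGroup (Fin 2) K) : Matrix (Fin 2) (Fin 2) K) = E X Y (4*t^4 - 6*t^2 + 1) 0 (-2*t^3 + 2*t) (-2*t^3 + 2*t) :=
    comm_E H (p0 := 0) (p1 := 1) (p2 := t) (p3 := -t) (q0 := 0) (q1 := 2*t^2 - 1) (q2 := t) (q3 := -t) u0 hX
      (E_mul H (by ring) (by ring) (by ring) (by ring))
      (E_mul H (by ring) (by ring) (by ring) (by ring))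
      (E_mul H (by ring) (by ring) (by ring) (by ring))
  have b1 : ((comm (word gX gY 0) gY : SpecialLinearGroup (Fin 2) K) : Matrix (Fin 2) (Fin 2) K) = E X Y (2*t^4 - 3*t^2 + 1) (-2*t^4 + 3*t^2) (-2*t^5 + 3*t^3) (2*t^5 - 5*t^3 + 2*t) :=
    comm_E H (p0 := 2*t^3 - 2*t) (p1 := -t) (p2 := -2*t^2 + 1) (p3 := 0) (q0 := -t) (q1 := -t) (q2 := t^2 - 1) (q3 := t^2) u0 hY
      (E_mul H (by ring) (by ring) (by ring) (by ring))
      (E_mul H (by ring) (by ring) (by ring) (by ring))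
      (E_mul H (by ring) (by ring) (by ring) (by ring))
  have u1 : ((word gX gY 1 : SpecialLinearGroup (Fin 2) K) : Matrix (Fin 2) (Fin 2) K) = E X Y 0 (-2*t^2 + 1) (-t) t :=
    comm_E H (p0 := -4*t^6 + 10*t^4 - 7*t^2 + 1) (p1 := t^2) (p2 := 4*t^7 - 12*t^5 + 11*t^3 - 2*t) (p3 := 4*t^7 - 12*t^5 + 11*t^3 - 4*t) (q0 := 8*t^8 - 28*t^6 + 32*t^4 - 13*t^2 + 1) (q1 := -8*t^8 + 28*t^6 - 28*t^4 + 7*t^2) (q2 := -8*t^9 + 28*t^7 - 28*t^5 + 5*t^3 + 2*t) (q3 := 8*t^9 - 36*t^7 + 52*t^5 - 27*t^3 + 4*t) a1 b1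
      (E_mul H (by ring) (by ring) (by ring) (by ring))
      (E_mul H (by ring) (by ring) (by ring) (by ring))
      (E_mul H (by linear_combination (4*t^6 - 10*t^4 + 4*t^2 + 1) * ht) (by linear_combination (4*t^6 - 10*t^4 + 6*t^2 - 1) * ht) (by linear_combination (-4*t^7 + 14*t^5 - 12*t^3 + t) * ht) (by linear_combination (-4*t^7 + 10*t^5 - 4*t^3 - t) * ht))
  have a2 : ((comm (word gX gY 1) gX : SpecialLinearGroup (Fin 2) K) : Matrix (Fin 2) (Fin 2) K) = E X Y (-2*t^2 + 1) 0 (2*t^3 - 2*t) (2*t^3 - 2*t) :=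
    comm_E H (p0 := -1) (p1 := 0) (p2 := t) (p3 := t) (q0 := -1) (q1 := 0) (q2 := t) (q3 := t) u1 hX
      (E_mul H (by ring) (by ring) (by ring) (by ring))
      (E_mul H (by ring) (by ring) (by ring) (by ring))
      (E_mul H (by ring) (by ring) (by ring) (by ring))
  have b2 : ((comm (word gX gY 1) gY : SpecialLinearGroup (Fin 2) K) : Matrix (Fin 2) (Fin 2) K) = E X Y (-2*t^4 + 3*t^2 - 1) (2*t^4 - 3*t^2) (2*t^5 - 3*t^3 + t) (2*t^5 - 5*t^3 + 3*t) :=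
    comm_E H (p0 := t) (p1 := 2*t^3 - 2*t) (p2 := 0) (p3 := -2*t^2 + 1) (q0 := t) (q1 := -t) (q2 := -t^2) (q3 := -t^2 + 1) u1 hY
      (E_mul H (by ring) (by ring) (by ring) (by ring))
      (E_mul H (by ring) (by ring) (by ring) (by ring))
      (E_mul H (by ring) (by ring) (by ring) (by ring))
  have u2 : ((word gX gY 2 : SpecialLinearGroup (Fin 2) K) : Matrix (Fin 2) (Fin 2) K) = E X Y 0 (2*t^2 - 1) t (-t) :=
    comm_E H (p0 := 16*t^10 - 72*t^8 + 116*t^6 - 80*t^4 + 21*t^2 - 1) (p1 := -t^2) (p2 := -8*t^9 + 32*t^7 - 44*t^5 + 23*t^3 - 3*t) (p3 := -8*t^9 + 32*t^7 - 44*t^5 + 25*t^3 - 5*t) (q0 := -8*t^8 + 28*t^6 - 32*t^4 + 13*t^2 - 1) (q1 := 8*t^8 - 28*t^6 + 28*t^4 - 7*t^2) (q2 := 8*t^9 - 28*t^7 + 32*t^5 - 15*t^3 + 3*t) (q3 := 8*t^9 - 36*t^7 + 56*t^5 - 33*t^3 + 5*t) a2 b2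
      (E_mul H (by ring) (by ring) (by ring) (by ring))
      (E_mul H (by ring) (by ring) (by ring) (by ring))
      (E_mul H (by linear_combination (-8*t^8 + 28*t^6 - 26*t^4 + 4*t^2 + 1) * ht) (by linear_combination (-8*t^8 + 28*t^6 - 30*t^4 + 10*t^2 + 1) * ht) (by linear_combination (-8*t^9 + 36*t^7 - 54*t^5 + 28*t^3 - t) * ht) (by linear_combination (8*t^9 - 28*t^7 + 30*t^5 - 12*t^3 + t) * ht))
  have a3 : ((comm (word gX gY 2) gX : SpecialLinearGroup (Fin 2) K) : Matrix (Fin 2) (Fin 2) K) = E X Y (-2*t^2 + 1) 0 (2*t^3 - 2*t) (2*t^3 - 2*t) :=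
    comm_E H (p0 := 1) (p1 := 0) (p2 := -t) (p3 := -t) (q0 := 1) (q1 := 0) (q2 := -t) (q3 := -t) u2 hX
      (E_mul H (by ring) (by ring) (by ring) (by ring))
      (E_mul H (by ring) (by ring) (by ring) (by ring))
      (E_mul H (by ring) (by ring) (by ring) (by ring))
  have b3 : ((comm (word gX gY 2) gY : SpecialLinearGroup (Fin 2) K) : Matrix (Fin 2) (Fin 2) K) = E X Y (-2*t^4 + 3*t^2 - 1) (2*t^4 - 3*t^2) (2*t^5 - 3*t^3 + t) (2*t^5 - 5*t^3 + 3*t) :=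
    comm_E H (p0 := -t) (p1 := -2*t^3 + 2*t) (p2 := 0) (p3 := 2*t^2 - 1) (q0 := -t) (q1 := t) (q2 := t^2) (q3 := t^2 - 1) u2 hY
      (E_mul H (by ring) (by ring) (by ring) (by ring))
      (E_mul H (by ring) (by ring) (by ring) (by ring))
      (E_mul H (by ring) (by ring) (by ring) (by ring))
  have u3 : ((word gX gY 3 : SpecialLinearGroup (Fin 2) K) : Matrix (Fin 2) (Fin 2) K) = E X Y 0 (2*t^2 - 1) t (-t) :=
    comm_E H (p0 := 16*t^10 - 72*t^8 + 116*t^6 - 80*t^4 + 21*t^2 - 1) (p1 := -t^2) (p2 := -8*t^9 + 32*t^7 - 44*t^5 + 23*t^3 - 3*t) (p3 := -8*t^9 + 32*t^7 - 44*t^5 + 25*t^3 - 5*t) (q0 := -8*t^8 + 28*t^6 - 32*t^4 + 13*t^2 - 1) (q1 := 8*t^8 - 28*t^6 + 28*t^4 - 7*t^2) (q2 := 8*t^9 - 28*t^7 + 32*t^5 - 15*t^3 + 3*t) (q3 := 8*t^9 - 36*t^7 + 56*t^5 - 33*t^3 + 5*t) a3 b3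
      (E_mul H (by ring) (by ring) (by ring) (by ring))
      (E_mul H (by ring) (by ring) (by ring) (by ring))
      (E_mul H (by linear_combination (-8*t^8 + 28*t^6 - 26*t^4 + 4*t^2 + 1) * ht) (by linear_combination (-8*t^8 + 28*t^6 - 30*t^4 + 10*t^2 + 1) * ht) (by linear_combination (-8*t^9 + 36*t^7 - 54*t^5 + 28*t^3 - t) * ht) (by linear_combination (8*t^9 - 28*t^7 + 30*t^5 - 12*t^3 + t) * ht))
  exact ⟨u1, u2, u3⟩

end Pool.Agent.W_9a760e_h67
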