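import Pool.Agent.W_9a760e_h67.Alg

namespace Pool.Agent.W_9a760e_h67

open Matrix

variable {K : Type*} [Field K]

/-- traces `1, t, t`: `u_4 = u_2` -/
theorem chain7 {gX gY : SpecialLinearGroup (Fin 2) K} {t : K}
    (H : Tr (gX : Matrix (Fin 2) (Fin 2) K) (gY : Matrix (Fin 2) (Fin 2) K) 1 t t)
    (ht : t^3 + t^2 - 2*t - 1 = 0) :
    ((word gX gY 1 : SpecialLinearGroup (Fin 2) K) : Matrix (Fin 2) (Fin 2) K) = E (gX : Matrix (Fin 2) (Fin 2) K) (gY : Matrix (Fin 2) (Fin 2) K) 1 (t^2 - 1) 0 (-t) ∧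
    ((word gX gY 2 : SpecialLinearGroup (Fin 2) K) : Matrix (Fin 2) (Fin 2) K) = E (gX : Matrix (Fin 2) (Fin 2) K) (gY : Matrix (Fin 2) (Fin 2) K) (-t) t (t^2 - 1) (-t^2 + 1) ∧
    ((word gX gY 3 : SpecialLinearGroup (Fin 2) K) : Matrix (Fin 2) (Fin 2) K) = E (gX : Matrix (Fin 2) (Fin 2) K) (gY : Matrix (Fin 2) (Fin 2) K) 1 (t^2 - 1) 0 (-t) := by
  set X : Matrix (Fin 2) (Fin 2) K := (gX : Matrix (Fin 2) (Fin 2) K) with hXd
  set Y : Matrix (Fin 2) (Fin 2) K := (gY : Matrix (Fin 2) (Fin 2) K) with hYd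
  have hX : (gX : Matrix (Fin 2) (Fin 2) K) = E X Y 0 1 0 0 := by simp [E, hXd]
  have hY : (gY : Matrix (Fin 2) (Fin 2) K) = E X Y 0 0 1 0 := by simp [E, hYd]
  have u0 : ((word gX gY 0 : SpecialLinearGroup (Fin 2) K) : Matrix (Fin 2) (Fin 2) K) = E X Y 0 (-1) 0 t :=
    comm_E H (p0 := t) (p1 := -t) (p2 := -1) (p3 := 1) (q0 := 0) (q1 := 0) (q2 := 0) (q3 := 1) hX hY
      (E_mul H (by ring) (by ring) (by ring) (by ring))
      (E_mul H (by ring) (by ring) (by ring) (by ring))
      (E_mul H (by ring) (by ring) (by ring) (by ring))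
  have a1 : ((comm (word gX gY 0) gX : SpecialLinearGroup (Fin 2) K) : Matrix (Fin 2) (Fin 2) K) = E X Y (-t) (t^2) t (t^2 - t - 1) :=
    comm_E H (p0 := 0) (p1 := 1) (p2 := t) (p3 := -t) (q0 := -t^2 + 1) (q1 := t^2 - 1) (q2 := t) (q3 := 0) u0 hX
      (E_mul H (by ring) (by ring) (by ring) (by ring))
      (E_mul H (by ring) (by ring) (by ring) (by ring))
      (E_mul H (by linear_combination (t - 1) * ht) (by ring) (by ring) (by linear_combination (-1) * ht))
  have b1 : ((comm (word gX gY 0) gY : SpecialLinearGroup (Fin 2) K) : Matrix (Fin 2) (Fin 2) K) = E X Y (t^2 - t - 1) t (t^2) (-1) :=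
    comm_E H (p0 := -t^2 + t + 1) (p1 := 0) (p2 := -t^2 + 1) (p3 := -1) (q0 := 0) (q1 := -t) (q2 := 0) (q3 := t^2 - 1) u0 hY
      (E_mul H (by linear_combination 1 * ht) (by ring) (by ring) (by ring))
      (E_mul H (by ring) (by ring) (by ring) (by ring))
      (E_mul H (by linear_combination (t - 1) * ht) (by linear_combination 1 * ht) (by linear_combination (-t^2 + t) * ht) (by linear_combination (-t) * ht))
  have u1 : ((word gX gY 1 : SpecialLinearGroup (Fin 2) K) : Matrix (Fin 2) (Fin 2) K) = E X Y 1 (t^2 - 1) 0 (-t) :=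
    comm_E H (p0 := -1) (p1 := -t^2 + 1) (p2 := 0) (p3 := -t^2 + t + 1) (q0 := 2*t^2 - 2*t - 2) (q1 := 0) (q2 := t^2 - t) (q3 := t^2 - 1) a1 b1
      (E_mul H (by linear_combination (t^3 + t^2 - 2*t) * ht) (by linear_combination (-t^2 - t + 1) * ht) (by linear_combination (-t^2) * ht) (by linear_combination 2 * ht))
      (E_mul H (by linear_combination (-t - 1) * ht) (by linear_combination t * ht) (by linear_combination t * ht) (by linear_combination (t^2 - 2) * ht))
      (E_mul H (by linear_combination (t - 2) * ht) (by linear_combination (-t + 1) * ht) (by linear_combination (t - 1) * ht) (by linear_combination (-2*t^2 + t + 2) * ht))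
  have a2 : ((comm (word gX gY 1) gX : SpecialLinearGroup (Fin 2) K) : Matrix (Fin 2) (Fin 2) K) = E X Y (-t^2 + 1) 0 (-t^2 + 1) t :=
    comm_E H (p0 := 1) (p1 := -t^2) (p2 := -t) (p3 := t) (q0 := 1) (q1 := 0) (q2 := -t) (q3 := 0) u1 hX
      (E_mul H (by ring) (by ring) (by ring) (by ring))
      (E_mul H (by ring) (by ring) (by ring) (by ring))
      (E_mul H (by ring) (by ring) (by linear_combination 1 * ht) (by ring))
  have b2 : ((comm (word gX gY 1) gY : SpecialLinearGroup (Fin 2) K) : Matrix (Fin 2) (Fin 2) K) = E X Y (-1) 1 t 0 :=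
    comm_E H (p0 := 0) (p1 := t^2 - 1) (p2 := 0) (p3 := t^2 - 1) (q0 := 0) (q1 := t) (q2 := 1) (q3 := -1) u1 hY
      (E_mul H (by ring) (by linear_combination (-1) * ht) (by ring) (by ring))
      (E_mul H (by ring) (by ring) (by ring) (by ring))
      (E_mul H (by linear_combination (-t) * ht) (by linear_combination t * ht) (by linear_combination 1 * ht) (by ring))
  have u2 : ((word gX gY 2 : SpecialLinearGroup (Fin 2) K) : Matrix (Fin 2) (Fin 2) K) = E X Y (-t) t (t^2 - 1) (-t^2 + 1) :=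
    comm_E H (p0 := 2*t^2 - 2*t - 1) (p1 := -1) (p2 := t^2 - t) (p3 := t^2 - 1) (q0 := -t^2 + t) (q1 := -t) (q2 := -t^2 + t) (q3 := t) a2 b2
      (E_mul H (by linear_combination (-t^2 + t - 1) * ht) (by ring) (by linear_combination (t - 1) * ht) (by ring))
      (E_mul H (by linear_combination 1 * ht) (by linear_combination (-1) * ht) (by linear_combination (-t) * ht) (by linear_combination 1 * ht))
      (E_mul H (by ring) (by linear_combination (-t) * ht) (by linear_combination (-t^2 + t - 1) * ht) (by linear_combination (-t^2 + 2*t + 1) * ht))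
  have a3 : ((comm (word gX gY 2) gX : SpecialLinearGroup (Fin 2) K) : Matrix (Fin 2) (Fin 2) K) = E X Y 0 (t^2 - t) (-t^2 + t + 1) (t^2 - t) :=
    comm_E H (p0 := -t^2 + 1) (p1 := 0) (p2 := -t^2 + 1) (p3 := 0) (q0 := -t^2 + 1) (q1 := 0) (q2 := 0) (q3 := -t^2 + 1) u2 hX
      (E_mul H (by linear_combination 1 * ht) (by ring) (by ring) (by ring))
      (E_mul H (by linear_combination 1 * ht) (by ring) (by ring) (by ring))
      (E_mul H (by ring) (by linear_combination (t - 1) * ht) (by linear_combination (t^2) * ht) (by linear_combination (t - 1) * ht))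
  have b3 : ((comm (word gX gY 2) gY : SpecialLinearGroup (Fin 2) K) : Matrix (Fin 2) (Fin 2) K) = E X Y (t^2 - t - 1) t (t^2) (-1) :=
    comm_E H (p0 := -t^2 + 1) (p1 := -1) (p2 := 0) (p3 := t) (q0 := -t^2 + 1) (q1 := t^2 - 1) (q2 := -t^2 + 1) (q3 := t^2 - 1) u2 hY
      (E_mul H (by ring) (by ring) (by ring) (by ring))
      (E_mul H (by ring) (by ring) (by linear_combination 1 * ht) (by linear_combination (-1) * ht))
      (E_mul H (by linear_combination (-1) * ht) (by linear_combination 1 * ht) (by linear_combination t * ht) (by linear_combination (-t) * ht))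
  have u3 : ((word gX gY 3 : SpecialLinearGroup (Fin 2) K) : Matrix (Fin 2) (Fin 2) K) = E X Y 1 (t^2 - 1) 0 (-t) :=
    comm_E H (p0 := 1) (p1 := -t^2) (p2 := -t) (p3 := -t^2 + t + 1) (q0 := t^2 - 2*t) (q1 := t^2 - 1) (q2 := t^2) (q3 := t^2 - t - 1) a3 b3
      (E_mul H (by linear_combination (t^2) * ht) (by linear_combination (-t^2 + 1) * ht) (by linear_combination (-1) * ht) (by linear_combination 1 * ht))
      (E_mul H (by linear_combination (-1) * ht) (by ring) (by linear_combination (-t^2 + t + 1) * ht) (by linear_combination (t^2 - 1) * ht))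
      (E_mul H (by linear_combination (t^2) * ht) (by linear_combination (-t^2) * ht) (by linear_combination (-2*t + 1) * ht) (by linear_combination (-2*t^2 + 2*t + 1) * ht))
  exact ⟨u1, u2, u3⟩

end Pool.Agent.W_9a760e_h67
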