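import Pool.Agent.W_9a760e_h67.Alg

/-!
Finite fields: traces of roots of unity, matrices with given traces.
-/

namespace Pool.Agent.W_9a760e_h67

open Matrix Polynomial

variable {K : Type*} [Field K] [Fintype K]

lemma mem_of_pow_card {L : Type*} [Field L] (f : K →+* L) {c : L}
    (hc : c ^ Fintype.card K = c) : ∃ a : K, f a = c := by
  have hq := Fintype.one_lt_card (α := K)
  have hcard : Multiset.card (roots (X ^ Fintype.card K - X : K[X])) =
      natDegree (X ^ Fintype.card K - X : K[X]) := by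
    rw [FiniteField.roots_X_pow_card_sub_X, FiniteField.X_pow_card_sub_X_natDegree_eq K hq,
      ← Finset.card_def, Finset.card_univ]
  have h1 := roots_map_of_injective_of_card_eq_natDegree f.injective hcard
  have h2 : c ∈ (map f (X ^ Fintype.card K - X : K[X])).roots := by
    have e : map f (X ^ Fintype.card K - X : K[X]) = X ^ Fintype.card K - X := by simp
    rw [e, mem_roots (FiniteField.X_pow_card_sub_X_ne_zero L hq)]
    simp [hc]
  rw [← h1, Multiset.mem_map] at h2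
  obtain ⟨a, -, ha⟩ := h2
  exact ⟨a, ha⟩

/-- `q = ± 1 mod N`: the element `ζ + ζ⁻¹` is in `K`. -/
lemma exists_cyc {N : ℕ} (hN : (N : K) ≠ 0)
    (hq : Fintype.card K % N = 1 ∨ (Fintype.card K + 1) % N = 0) :
    ∃ (ζ : AlgebraicClosure K) (c : K), IsPrimitiveRoot ζ N ∧
      algebraMap K (AlgebraicClosure K) c = ζ + ζ⁻¹ := by
  have hN0 : N ≠ 0 := by rintro rfl; simp at hN
  have hNL : ((N : ℕ) : AlgebraicClosure K) ≠ 0 := by
    intro h
    apply hN
    have h1 : algebraMap K (AlgebraicClosure K) (N : K) = 0 := by rw [map_natCast, h]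
    exact (map_eq_zero _).1 h1
  have : NeZero ((N : ℕ) : AlgebraicClosure K) := ⟨hNL⟩
  obtain ⟨ζ, hζ⟩ : ∃ ζ : AlgebraicClosure K, IsPrimitiveRoot ζ N := by
    have hdeg : (cyclotomic N (AlgebraicClosure K)).degree ≠ 0 := by
      rw [degree_cyclotomic]
      have := Nat.totient_pos.2 (Nat.pos_of_ne_zero hN0)
      exact_mod_cast this.ne'
    obtain ⟨ζ, h⟩ := IsAlgClosed.exists_root _ hdeg
    exact ⟨ζ, isRoot_cyclotomic_iff.1 h⟩
  have hζ0 : ζ ≠ 0 := hζ.ne_zero hN0
  have hp : ζ ^ N = 1 := hζ.pow_eq_one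
  obtain ⟨p, hchar, n, hpp, hcard⟩ := FiniteField.card' K
  have hpf : Fact p.Prime := ⟨hpp⟩
  have hcharL : CharP (AlgebraicClosure K) p :=
    charP_of_injective_algebraMap (algebraMap K (AlgebraicClosure K)).injective p
  have hfrob : (ζ + ζ⁻¹) ^ Fintype.card K = ζ ^ Fintype.card K + (ζ⁻¹) ^ Fintype.card K := by
    rw [hcard]
    exact add_pow_char_pow ζ ζ⁻¹ p n
  have hpow : (ζ + ζ⁻¹) ^ Fintype.card K = ζ + ζ⁻¹ := by
    rw [hfrob, inv_pow]
    rcases hq with h | h
    · have e : ζ ^ Fintype.card K = ζ := by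
        conv_lhs => rw [← Nat.div_add_mod (Fintype.card K) N, h, pow_add, pow_mul, hp, one_pow,
          one_mul, pow_one]
      rw [e]
    · have e : ζ ^ Fintype.card K = ζ⁻¹ := by
        obtain ⟨m, hm⟩ := Nat.dvd_of_mod_eq_zero h
        have e1 : ζ ^ Fintype.card K * ζ = 1 := by
          rw [← pow_succ, hm, pow_mul, hp, one_pow]
        exact eq_inv_of_mul_eq_one_left e1
      rw [e, inv_inv, add_comm]
  obtain ⟨c, hc⟩ := mem_of_pow_card (algebraMap K (AlgebraicClosure K)) hpow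
  exact ⟨ζ, c, hζ, hc⟩

lemma cast_ne_zero_of_coprime {N : ℕ} (h : Nat.Coprime (Fintype.card K) N) : (N : K) ≠ 0 := by
  obtain ⟨p, hchar, n, hpp, hcard⟩ := FiniteField.card' K
  intro h0
  have h1 : p ∣ N := (CharP.cast_eq_zero_iff K p N).1 h0
  have h2 : p ∣ Fintype.card K := by
    rw [hcard]
    exact dvd_pow_self _ n.ne_zero
  have h3 : p ∣ 1 := by
    rw [← h.gcd_eq_one]
    exact Nat.dvd_gcd h2 h1
  exact hpp.one_lt.ne' (Nat.dvd_one.1 h3)

lemma exists_t5 (hq : Fintype.card K % 5 = 0 ∨ Fintype.card K % 5 = 1 ∨ Fintype.card K % 5 = 4) :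
    ∃ t : K, t ^ 2 - t - 1 = 0 := by
  by_cases h5 : ((5 : ℕ) : K) = 0
  · refine ⟨3, ?_⟩
    have : (5 : K) = 0 := by exact_mod_cast h5
    linear_combination this
  · obtain ⟨ζ, c, hζ, hc⟩ := exists_cyc (K := K) (N := 5) h5 (by
      rcases hq with h | h | h
      · exfalso
        apply h5
        obtain ⟨p, hchar, n, hpp, hcard⟩ := FiniteField.card' K
        have h1 : 5 ∣ p ^ (n : ℕ) := by rw [← hcard]; exact Nat.dvd_of_mod_eq_zero h
        have h2 : 5 ∣ p := Nat.Prime.dvd_of_dvd_pow (by norm_num) h1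
        have h3 : p = 5 := ((Nat.prime_dvd_prime_iff_eq (by norm_num) hpp).1 h2).symm
        rw [h3] at hchar
        exact CharP.cast_eq_zero K 5
      · exact Or.inl h
      · right; omega)
    refine ⟨-c, ?_⟩
    apply (algebraMap K (AlgebraicClosure K)).injective
    have hz0 : ζ ≠ 0 := hζ.ne_zero (by norm_num)
    have hz1 : ζ ≠ 1 := by
      intro h
      have := hζ.eq_orderOf
      rw [h, orderOf_one] at this
      norm_num at this
    have h5 : ζ ^ 5 = 1 := hζ.pow_eq_one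
    have hs : ζ ^ 4 + ζ ^ 3 + ζ ^ 2 + ζ + 1 = 0 := by
      have : (ζ - 1) * (ζ ^ 4 + ζ ^ 3 + ζ ^ 2 + ζ + 1) = 0 := by linear_combination h5
      rcases mul_eq_zero.1 this with h | h
      · exact absurd (sub_eq_zero.1 h) hz1
      · exact h
    rw [map_sub, map_sub, map_pow, map_neg, hc, map_one, map_zero]
    field_simp
    linear_combination hs

lemma exists_t7 (hq : Fintype.card K % 7 = 0 ∨ Fintype.card K % 7 = 1 ∨ Fintype.card K % 7 = 6) :
    ∃ t : K, t ^ 3 + t ^ 2 - 2 * t - 1 = 0 := by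
  by_cases h7 : ((7 : ℕ) : K) = 0
  · refine ⟨2, ?_⟩
    have : (7 : K) = 0 := by exact_mod_cast h7
    linear_combination this
  · obtain ⟨ζ, c, hζ, hc⟩ := exists_cyc (K := K) (N := 7) h7 (by
      rcases hq with h | h | h
      · exfalso
        apply h7
        obtain ⟨p, hchar, n, hpp, hcard⟩ := FiniteField.card' K
        have h1 : 7 ∣ p ^ (n : ℕ) := by rw [← hcard]; exact Nat.dvd_of_mod_eq_zero h
        have h2 : 7 ∣ p := Nat.Prime.dvd_of_dvd_pow (by norm_num) h1
        have h3 : p = 7 := ((Nat.prime_dvd_prime_iff_eq (by norm_num) hpp).1 h2).symm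
        rw [h3] at hchar
        exact CharP.cast_eq_zero K 7
      · exact Or.inl h
      · right; omega)
    refine ⟨c, ?_⟩
    apply (algebraMap K (AlgebraicClosure K)).injective
    have hz0 : ζ ≠ 0 := hζ.ne_zero (by norm_num)
    have hz1 : ζ ≠ 1 := by
      intro h
      have := hζ.eq_orderOf
      rw [h, orderOf_one] at this
      norm_num at this
    have h7 : ζ ^ 7 = 1 := hζ.pow_eq_one
    have hs : ζ ^ 6 + ζ ^ 5 + ζ ^ 4 + ζ ^ 3 + ζ ^ 2 + ζ + 1 = 0 := by
      have : (ζ - 1) * (ζ ^ 6 + ζ ^ 5 + ζ ^ 4 + ζ ^ 3 + ζ ^ 2 + ζ + 1) = 0 := by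
        linear_combination h7
      rcases mul_eq_zero.1 this with h | h
      · exact absurd (sub_eq_zero.1 h) hz1
      · exact h
    rw [map_sub, map_sub, map_add, map_pow, map_pow, map_mul, hc, map_one, map_zero, map_ofNat]
    field_simp
    linear_combination hs

lemma odd_of_16 (hq : Fintype.card K % 16 = 1 ∨ Fintype.card K % 16 = 15) : (2 : K) ≠ 0 := by
  have h : Nat.Coprime (Fintype.card K) 2 :=
    ((Nat.Prime.coprime_iff_not_dvd Nat.prime_two).2 (by omega)).symm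
  exact_mod_cast cast_ne_zero_of_coprime (K := K) h

lemma exists_t16 (hq : Fintype.card K % 16 = 1 ∨ Fintype.card K % 16 = 15) :
    ∃ t : K, 2 * t ^ 4 - 4 * t ^ 2 + 1 = 0 := by
  have h2 := odd_of_16 hq
  have h16 : ((16 : ℕ) : K) ≠ 0 := by
    have : ((16 : ℕ) : K) = 2 ^ 4 := by norm_num
    rw [this]
    exact pow_ne_zero _ h2
  obtain ⟨ζ, c, hζ, hc⟩ := exists_cyc (K := K) (N := 16) h16 (by omega)
  -- `s = c ^ 2 - 2`, `s ^ 2 = 2`, `t = c * s / 2`
  have hz0 : ζ ≠ 0 := hζ.ne_zero (by norm_num)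
  have h8 : ζ ^ 8 = -1 := by
    have h1 : (ζ ^ 8 - 1) * (ζ ^ 8 + 1) = 0 := by linear_combination hζ.pow_eq_one
    rcases mul_eq_zero.1 h1 with h | h
    · exact absurd (sub_eq_zero.1 h) (hζ.pow_ne_one_of_pos_of_lt (by norm_num) (by norm_num))
    · linear_combination h
  have hs : (c ^ 2 - 2) ^ 2 = 2 := by
    apply (algebraMap K (AlgebraicClosure K)).injective
    rw [map_pow, map_sub, map_pow, hc, map_ofNat]
    field_simp
    linear_combination h8
  refine ⟨c * (c ^ 2 - 2) / 2, ?_⟩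
  have ht : 2 * (c * (c ^ 2 - 2) / 2) = c * (c ^ 2 - 2) := by field_simp
  generalize c * (c ^ 2 - 2) / 2 = t at ht
  have h8' : (8 : K) ≠ 0 := by
    have : (8 : K) = 2 ^ 3 := by norm_num
    rw [this]
    exact pow_ne_zero _ h2
  have h9 : 8 * (2 * t ^ 4 - 4 * t ^ 2 + 1) = 0 := by
    have e : 8 * (2 * t ^ 4 - 4 * t ^ 2 + 1) = (2 * t) ^ 4 - 8 * (2 * t) ^ 2 + 8 := by ring
    rw [e, ht]
    linear_combination (c ^ 4 * ((c ^ 2 - 2) ^ 2 + 2) - 8 * c ^ 2 + 4) * hs
  exact (mul_eq_zero.1 h9).resolve_left h8'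

end Pool.Agent.W_9a760e_h67
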