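import Pool.Agent.W_9a760e_h67.Mat
import Pool.Agent.W_9a760e_h67.C5
import Pool.Agent.W_9a760e_h67.C7
import Pool.Agent.W_9a760e_h67.C16

/-!
The group `PSL(2, q)` satisfies no identity `u_n = 1` if `q = 0, 1, -1 mod 5`, or
`q = 0, 1, -1 mod 7`, or `q = 1, -1 mod 16`.
-/

namespace Pool.Agent.W_9a760e_h67

open Matrix

/-- the residue classes of the theorem -/
def Good (q : ℕ) : Prop :=
  (q % 5 = 0 ∨ q % 5 = 1 ∨ q % 5 = 4) ∨ (q % 7 = 0 ∨ q % 7 = 1 ∨ q % 7 = 6) ∨
    (q % 16 = 1 ∨ q % 16 = 15)

variable {K : Type*} [Field K]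

lemma two_of_one {X Y : Matrix (Fin 2) (Fin 2) K} {x y z : K} (H : Tr X Y x y z)
    {g : SpecialLinearGroup (Fin 2) K} {a b c d : K}
    (hg : (g : Matrix (Fin 2) (Fin 2) K) = E X Y a b c d) (h1 : g = 1) :
    2 * a + b * x + c * y + d * z = 2 := by
  rw [← E_trace H, ← hg, h1]
  simp
  norm_num

theorem main [Fintype K] (hq : Good (Fintype.card K)) :
    ∃ gX gY : SpecialLinearGroup (Fin 2) K,
      ∀ n, word gX gY n ∉ Subgroup.center (SpecialLinearGroup (Fin 2) K) := by
  rcases hq with h | h | h
  · obtain ⟨t, ht⟩ := exists_t5 h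
    obtain ⟨gX, gY, H⟩ := pair_one (K := K) (y := 1) (z := t) (fun _ h0 => by
      have e : t = 2 := by linear_combination -h0
      subst e
      apply one_ne_zero (α := K)
      linear_combination ht)
    obtain ⟨u3, -, u7⟩ := chain5 H ht
    refine ⟨gX, gY, not_center (m := 3) (k := 4) (by norm_num) (Subtype.ext (u7.trans u3.symm)) ?_⟩
    intro h1
    have e := two_of_one H u3 h1
    have e2 : t = 2 := by linear_combination e
    subst e2
    apply one_ne_zero (α := K)
    linear_combination ht
  · obtain ⟨t, ht⟩ := exists_t7 h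
    obtain ⟨gX, gY, H⟩ := pair_one (K := K) (y := t) (z := t) (fun _ h0 => by
      have e : t = 0 := by linear_combination h0
      subst e
      apply one_ne_zero (α := K)
      linear_combination -ht)
    obtain ⟨u1, -, u3⟩ := chain7 H ht
    refine ⟨gX, gY, not_center (m := 1) (k := 2) (by norm_num) (Subtype.ext (u3.trans u1.symm)) ?_⟩
    intro h1
    have e := two_of_one H u1 h1
    apply one_ne_zero (α := K)
    linear_combination -e
  · obtain ⟨t, ht⟩ := exists_t16 h
    have h2 := odd_of_16 h
    obtain ⟨gX, gY, H⟩ := exists_pair (conic_odd (K := K) (x := 0) (y := t) (z := t) h2 (by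
      intro h0
      apply h2
      have e : (2 : K) * 2 = 0 := by linear_combination -h0
      rcases mul_self_eq_zero.1 e with h
      exact h))
    obtain ⟨-, u2, u3⟩ := chain16 H ht
    refine ⟨gX, gY, not_center (m := 2) (k := 1) (by norm_num) (Subtype.ext (u3.trans u2.symm)) ?_⟩
    intro h1
    have e := two_of_one H u2 h1
    apply h2
    linear_combination -e

/-- all squares and all cubes are good -/
lemma good_pow (r : ℕ) : Good (r ^ 2) ∧ Good (r ^ 3) := by
  constructor
  · left
    have h : r % 5 < 5 := Nat.mod_lt _ (by norm_num)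
    rw [Nat.pow_mod]
    interval_cases r % 5 <;> norm_num
  · right; left
    have h : r % 7 < 7 := Nat.mod_lt _ (by norm_num)
    rw [Nat.pow_mod]
    interval_cases r % 7 <;> norm_num

theorem main_section {G : Type*} [Group G] [Fintype K] (hq : Good (Fintype.card K))
    (H : Subgroup G) (φ : H →* ProjectiveSpecialLinearGroup (Fin 2) K)
    (hφ : Function.Surjective φ) (n : ℕ) : ∃ a b : G, word a b n ≠ 1 := by
  obtain ⟨gX, gY, hc⟩ := main hq
  let π : SpecialLinearGroup (Fin 2) K →* ProjectiveSpecialLinearGroup (Fin 2) K :=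
    QuotientGroup.mk' (Subgroup.center (SpecialLinearGroup (Fin 2) K))
  obtain ⟨a, ha⟩ := hφ (π gX)
  obtain ⟨b, hb⟩ := hφ (π gY)
  refine ⟨a, b, fun h1 => hc n ?_⟩
  have h2 : word a b n = 1 := by
    apply Subtype.ext
    have := word_map H.subtype a b n
    simp only [Subgroup.coe_subtype] at this
    rw [this, h1]
    rfl
  have h3 : π (word gX gY n) = 1 := by
    rw [word_map, ← ha, ← hb, ← word_map, h2, map_one]
  exact (QuotientGroup.eq_one_iff _).1 h3

end Pool.Agent.W_9a760e_h67
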