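import Pool.Agent.W_9a760e_h67.Fld

/-!
Matrices of determinant one with given traces over a finite field.
-/

namespace Pool.Agent.W_9a760e_h67

open Matrix Polynomial

variable {K : Type*} [Field K]

lemma exists_pair {x y z : K} (h : ∃ a b : K, a * (y - a) - b * (b + x * (y - a) - z) = 1) :
    ∃ gX gY : SpecialLinearGroup (Fin 2) K,
      Tr (gX : Matrix (Fin 2) (Fin 2) K) (gY : Matrix (Fin 2) (Fin 2) K) x y z := by
  obtain ⟨a, b, h⟩ := h
  refine ⟨⟨!![0, -1; 1, x], ?_⟩, ⟨!![a, b; b + x * (y - a) - z, y - a], ?_⟩, ?_⟩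
  · rw [det_fin_two_of]; ring
  · rw [det_fin_two_of]; exact h
  · constructor
    · simp
    · simpa using h
    · simp
    · simp
    · simp

lemma conic_odd [Fintype K] {x y z : K} (h2 : (2 : K) ≠ 0) (hx : x ^ 2 ≠ 4) :
    ∃ a b : K, a * (y - a) - b * (b + x * (y - a) - z) = 1 := by
  have h4 : (4 : K) ≠ 0 := by
    have : (4 : K) = 2 ^ 2 := by norm_num
    rw [this]
    exact pow_ne_zero _ h2
  have hlead : (1 - x ^ 2 / 4 : K) ≠ 0 := by
    intro h
    apply hx
    field_simp at h
    linear_combination -h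
  have hdf : degree (X ^ 2 : K[X]) = 2 := by rw [degree_X_pow]; rfl
  have hdg : degree (C (1 - x ^ 2 / 4) * X ^ 2 + C (x * y / 2 - z) * X + C (1 - y ^ 2 / 4) : K[X]) = 2 :=
    degree_quadratic hlead
  have hcard : Fintype.card K % 2 = 1 := by
    rw [FiniteField.odd_card_of_char_ne_two]
    intro h
    apply h2
    have := CharP.cast_eq_zero K (ringChar K)
    rw [h] at this
    exact_mod_cast this
  obtain ⟨A, b, h⟩ := FiniteField.exists_root_sum_quadratic hdf hdg hcard
  simp only [eval_pow, eval_X, eval_add, eval_mul, eval_C] at h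
  refine ⟨A + (x * b + y) / 2, b, ?_⟩
  have h' : 4 * A ^ 2 + ((4 - x ^ 2) * b ^ 2 + 2 * (x * y - 2 * z) * b + (4 - y ^ 2)) = 0 := by
    field_simp at h
    have e : (2 : K) * (4 * A ^ 2 + ((4 - x ^ 2) * b ^ 2 + 2 * (x * y - 2 * z) * b + (4 - y ^ 2))) = 0 := by
      linear_combination h
    exact (mul_eq_zero.1 e).resolve_left h2
  field_simp
  linear_combination -h'

lemma conic_two [Fintype K] {y z : K} (h2 : (2 : K) = 0) :
    ∃ a b : K, a * (y - a) - b * (b + 1 * (y - a) - z) = 1 := by
  have hc : ringChar K = 2 := by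
    have : CharP K 2 := by
      rcases CharP.exists K with ⟨p, hp⟩
      have h3 : p ∣ 2 := (CharP.cast_eq_zero_iff K p 2).1 (by exact_mod_cast h2)
      rcases (Nat.dvd_prime Nat.prime_two).1 h3 with h | h
      · subst h
        exact absurd (CharP.cast_eq_zero K 1) (by rw [Nat.cast_one]; exact one_ne_zero)
      · subst h; exact hp
    exact ringChar.eq K 2
  obtain ⟨a, ha⟩ := FiniteField.isSquare_of_char_two hc (z * y + 1)
  refine ⟨a, y, ?_⟩
  linear_combination ha + (a * y - y ^ 2 - 1) * h2

lemma conic_three {y z : K} (h3 : (3 : K) = 0) (h : 2 * y - z ≠ 0) :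
    ∃ a b : K, a * (y - a) - b * (b + 1 * (y - a) - z) = 1 := by
  have hb : (-1 / (2 * y - z)) * (2 * y - z) = -1 := by field_simp
  generalize -1 / (2 * y - z) = b at hb
  refine ⟨-b, b, ?_⟩
  linear_combination -hb - b ^ 2 * h3

lemma pair_one [Fintype K] {y z : K} (h : (3 : K) = 0 → 2 * y - z ≠ 0) :
    ∃ gX gY : SpecialLinearGroup (Fin 2) K,
      Tr (gX : Matrix (Fin 2) (Fin 2) K) (gY : Matrix (Fin 2) (Fin 2) K) 1 y z := by
  apply exists_pair
  by_cases h2 : (2 : K) = 0
  · exact conic_two h2
  · by_cases h3 : (3 : K) = 0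
    · exact conic_three h3 (h h3)
    · apply conic_odd h2
      intro h4
      apply h3
      linear_combination -h4

/-! ### periodicity -/

variable {G : Type*} [Group G]

lemma word_succ (a b : G) (n : ℕ) :
    word a b (n + 1) = comm (comm (word a b n) a) (comm (word a b n) b) := rfl

lemma word_shift {a b : G} {m k : ℕ} (h : word a b (m + k) = word a b m) (i : ℕ) :
    word a b (m + k + i) = word a b (m + i) := by
  induction i with
  | zero => exact h
  | succ i ih => rw [← add_assoc, ← add_assoc, word_succ, word_succ, ih]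

lemma word_period {a b : G} {m k : ℕ} (h : word a b (m + k) = word a b m) (j : ℕ) :
    word a b (m + k * j) = word a b m := by
  induction j with
  | zero => rfl
  | succ j ih =>
    rw [Nat.mul_succ, show m + (k * j + k) = m + k + k * j by ring, word_shift h, ih]

lemma word_one_of_center {a b : G} {n : ℕ} (h : word a b n ∈ Subgroup.center G) (i : ℕ) :
    word a b (n + 1 + i) = 1 := by
  induction i with
  | zero =>
    rw [add_zero, word_succ]
    have h1 : ∀ g, comm (word a b n) g = 1 := by
      intro g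
      have h2 := (Subgroup.mem_center_iff.1 h) g
      unfold comm
      have : (word a b n)⁻¹ * g⁻¹ * word a b n * g = (word a b n)⁻¹ * (g⁻¹ * (word a b n * g)) := by
        group
      rw [this, ← h2]
      group
    rw [h1, h1]
    simp [comm]
  | succ i ih => rw [← add_assoc, word_succ, ih]; simp [comm]

/-- a nontrivial periodic sequence never meets the centre -/
lemma not_center {a b : G} {m k : ℕ} (hk : 0 < k) (h : word a b (m + k) = word a b m)
    (h1 : word a b m ≠ 1) (n : ℕ) : word a b n ∉ Subgroup.center G := by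
  intro hc
  apply h1
  rw [← word_period h (n + 1)]
  have h2 : n + 1 ≤ m + k * (n + 1) := by nlinarith
  obtain ⟨i, hi⟩ := Nat.exists_eq_add_of_le h2
  rw [hi]
  exact word_one_of_center hc i

lemma word_map {H : Type*} [Group H] (φ : G →* H) (a b : G) (n : ℕ) :
    φ (word a b n) = word (φ a) (φ b) n := by
  induction n with
  | zero => simp [word, comm]
  | succ n ih => rw [word_succ, word_succ, ← ih]; simp [comm]

end Pool.Agent.W_9a760e_h67
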